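import Mathlib
import Pool.Agent.Results.MP_8a2df8_gt.ProductCompact
import Pool.Agent.Results.MP_0f8365_gt.CountableFactor
import Pool.Agent.Y20.GC.Maps

/-!
# Products of Grothendieck spaces with spaces that have a dense `σ`-compact subspace, and of weakly
Grothendieck spaces with locally compact spaces
-/

set_option autoImplicit false

open Set Filter Topology

namespace Pool.Agent.Results.MP_8a2df8_gt.DenseSigmaCompactFactor

universe u v w

/-- `C_p(X)`: the continuous real functions on `X` with the topology of pointwise convergence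
(the subspace topology from the product `X → ℝ`). -/
abbrev Cp (X : Type u) [TopologicalSpace X] : Type u := {f : X → ℝ // Continuous f}

/-- `A` is countably compact in `Z`: each infinite subset of `A` has an accumulation point in `Z`. -/
def CountablyCompactIn {Z : Type u} [TopologicalSpace Z] (A : Set Z) : Prop :=
  ∀ B : Set Z, B ⊆ A → B.Infinite → ∃ z : Z, AccPt z (𝓟 B)

/-- `Z` is a g-space: `closure A` is compact for every `A` that is countably compact in `Z`. -/
def GSpace (Z : Type u) [TopologicalSpace Z] : Prop :=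
  ∀ A : Set Z, CountablyCompactIn A → IsCompact (closure A)

/-- `X` is weakly Grothendieck: `C_p(X)` is a g-space. -/
def WeaklyGrothendieck (X : Type u) [TopologicalSpace X] : Prop := GSpace (Cp X)

/-- `X` is Grothendieck: every subspace of `C_p(X)` is a g-space. -/
def Grothendieck (X : Type u) [TopologicalSpace X] : Prop := ∀ S : Set (Cp X), GSpace S

/-- `Y` has a dense `σ`-compact subspace. -/
def HasDenseSigmaCompact (Y : Type u) [TopologicalSpace Y] : Prop :=
  ∃ D : Set Y, IsSigmaCompact D ∧ Dense D

/-- composition with `π : V → W` as a map `C_p(W) → C_p(V)` -/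
def pull {V : Type v} {W : Type w} [TopologicalSpace V] [TopologicalSpace W] (π : V → W)
    (hπ : Continuous π) (f : Cp W) : Cp V := ⟨fun x => f.1 (π x), f.2.comp hπ⟩

theorem pull_continuous {V : Type v} {W : Type w} [TopologicalSpace V] [TopologicalSpace W]
    (π : V → W) (hπ : Continuous π) : Continuous (pull π hπ) := by
  have h : Continuous (fun (f : Cp W) (x : V) => f.1 (π x)) :=
    continuous_pi fun x => (continuous_apply (π x)).comp continuous_subtype_val
  exact h.subtype_mk _

theorem closure_image_subset {V : Type v} {W : Type w} [TopologicalSpace V] [TopologicalSpace W]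
    {π : V → W} (hπ : Continuous π) {S : Set (Cp W)} {A : Set S} (hA : CountablyCompactIn A)
    {T : Set (Cp V)} (hT : GSpace T) (hST : ∀ s ∈ S, pull π hπ s ∈ T)
    {f : W → ℝ} (hf : f ∈ closure ((fun s : S => s.1.1) '' A)) :
    ∃ t ∈ T, ∀ x, t.1 x = f (π x) := by
  let q : S → T := fun s => ⟨pull π hπ s.1, hST s.1 s.2⟩
  have hq : Continuous q :=
    Continuous.subtype_mk ((pull_continuous π hπ).comp continuous_subtype_val) _
  have hcc : CountablyCompactIn (q '' A) :=
    MP_0f8365_gt.CountableFactor.CountablyCompactIn.image hA hq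
  have h1 : IsCompact (closure (q '' A)) := hT _ hcc
  let e : T → (V → ℝ) := fun t => t.1.1
  have he : Continuous e := continuous_subtype_val.comp continuous_subtype_val
  have h2 : IsClosed (e '' closure (q '' A)) := (h1.image he).isClosed
  let r : (W → ℝ) → (V → ℝ) := fun g x => g (π x)
  have hr : Continuous r := continuous_pi fun x => continuous_apply (π x)
  have h3 : r f ∈ e '' closure (q '' A) := by
    have h4 : r f ∈ closure (r '' ((fun s : S => s.1.1) '' A)) :=
      image_closure_subset_closure_image hr (mem_image_of_mem r hf)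
    refine closure_minimal ?_ h2 h4
    rintro _ ⟨_, ⟨s, hs, rfl⟩, rfl⟩
    exact ⟨q s, subset_closure (mem_image_of_mem q hs), rfl⟩
  obtain ⟨t, -, ht⟩ := h3
  exact ⟨t.1, t.2, fun x => congrFun ht x⟩

/-- `W` is Grothendieck if some dense set, together with any given point, lies in a continuous image
of a Grothendieck space. -/
theorem grothendieck_of_maps {W : Type w} [TopologicalSpace W] {D : Set W} (hD : Dense D)
    (h : ∀ w : W, ∃ (V : Type v) (_ : TopologicalSpace V) (π : V → W), Grothendieck V ∧
      Continuous π ∧ D ⊆ range π ∧ w ∈ range π) : Grothendieck W := by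
  intro S A hA
  have hseq := MP_8a2df8_gt.WeakProductCompact.exists_mapClusterPt hA
  let e : S → W → ℝ := fun f => f.1.1
  have he : IsInducing e := IsInducing.subtypeVal.comp IsInducing.subtypeVal
  refine MP_8a2df8_gt.WeakProductCompact.isCompact_closure_of he hseq ?_
  intro f hf
  have key : ∀ w : W, ∃ s : S, (∀ x ∈ D, s.1.1 x = f x) ∧ s.1.1 w = f w := by
    intro w
    obtain ⟨V, _, π, hV, hπ, h1, h2⟩ := h w
    obtain ⟨t, ⟨s, hs, hst⟩, ht⟩ := closure_image_subset hπ hA (hV (pull π hπ '' S))
      (fun s hs => mem_image_of_mem _ hs) hf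
    have h3 : ∀ y ∈ range π, s.1 y = f y := by
      rintro _ ⟨x, rfl⟩
      rw [← ht x, ← hst]
      rfl
    exact ⟨⟨s, hs⟩, fun x hx => h3 x (h1 hx), h3 w h2⟩
  rcases isEmpty_or_nonempty W with hW | ⟨⟨w₀⟩⟩
  · have hne : (e '' A).Nonempty := closure_nonempty_iff.1 ⟨f, hf⟩
    obtain ⟨_, s, -, rfl⟩ := hne
    exact ⟨s, funext fun w => hW.elim w⟩
  · obtain ⟨s₀, h0, -⟩ := key w₀
    refine ⟨s₀, funext fun w => ?_⟩
    obtain ⟨s, h1, h2⟩ := key w
    have h3 : s₀.1.1 = s.1.1 := Continuous.ext_on hD s₀.1.2 s.1.2 fun x hx =>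
      (h0 x hx).trans (h1 x hx).symm
    show s₀.1.1 w = f w
    rw [h3, h2]

theorem grothendieck_prod {X : Type u} [TopologicalSpace X] [T35Space X] (hX : Grothendieck X)
    {Y : Type v} [TopologicalSpace Y] [T35Space Y] (hY : HasDenseSigmaCompact Y) :
    Grothendieck (X × Y) := by
  obtain ⟨D, ⟨K, hK, hKD⟩, hD⟩ := hY
  refine grothendieck_of_maps (D := univ ×ˢ D) (dense_univ.prod hD) ?_
  rintro ⟨x, y⟩
  have := Pool.Agent.Y20.GC.compact_PK hK y
  refine ⟨(X × Pool.Agent.Y20.GC.PK K y) × ℕ, inferInstance, Pool.Agent.Y20.GC.pmap X K y, ?_,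
    Pool.Agent.Y20.GC.pmap_continuous K y, ?_, (Pool.Agent.Y20.GC.range_pmap K y).2 x⟩
  · exact MP_0f8365_gt.CountableFactor.result _ ℕ
      (MP_8a2df8_gt.ProductCompact.result X hX (Pool.Agent.Y20.GC.PK K y)) inferInstance
  · rw [← hKD]
    exact (Pool.Agent.Y20.GC.range_pmap K y).1

theorem weakly_prod {X : Type u} [TopologicalSpace X] [T35Space X] (hX : WeaklyGrothendieck X)
    {Y : Type v} [TopologicalSpace Y] [T35Space Y] [LocallyCompactSpace Y] :
    WeaklyGrothendieck (X × Y) := by
  intro A hA
  have hseq := MP_8a2df8_gt.WeakProductCompact.exists_mapClusterPt hA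
  let e : Cp (X × Y) → X × Y → ℝ := fun f => f.1
  have he : IsInducing e := IsInducing.subtypeVal
  refine MP_8a2df8_gt.WeakProductCompact.isCompact_closure_of he hseq ?_
  intro f hf
  refine ⟨⟨f, ?_⟩, rfl⟩
  rw [continuous_iff_continuousAt]
  rintro ⟨x, y⟩
  obtain ⟨K, hK, hyK⟩ := exists_compact_mem_nhds y
  have : CompactSpace K := isCompact_iff_compactSpace.1 hK
  have hW : WeaklyGrothendieck (X × K) :=
    MP_8a2df8_gt.WeakProductCompact.result X hX K
  let π : X × K → X × Y := fun p => (p.1, p.2.1)
  have hπ : Continuous π := by fun_prop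
  have hcc : CountablyCompactIn (pull π hπ '' A) :=
    MP_0f8365_gt.CountableFactor.CountablyCompactIn.image hA (pull_continuous π hπ)
  have h1 : IsCompact (closure (pull π hπ '' A)) := hW _ hcc
  let e' : Cp (X × K) → (X × K → ℝ) := fun t => t.1
  have he' : Continuous e' := continuous_subtype_val
  have h2 : IsClosed (e' '' closure (pull π hπ '' A)) := (h1.image he').isClosed
  let r : (X × Y → ℝ) → (X × K → ℝ) := fun g x => g (π x)
  have hr : Continuous r := continuous_pi fun x => continuous_apply (π x)
  have h3 : r f ∈ e' '' closure (pull π hπ '' A) := by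
    have h4 : r f ∈ closure (r '' (e '' A)) :=
      image_closure_subset_closure_image hr (mem_image_of_mem r hf)
    refine closure_minimal ?_ h2 h4
    rintro _ ⟨_, ⟨s, hs, rfl⟩, rfl⟩
    exact ⟨pull π hπ s, subset_closure (mem_image_of_mem _ hs), rfl⟩
  obtain ⟨t, -, ht⟩ := h3
  have hc : Continuous (fun p : X × K => f (p.1, p.2.1)) := by
    have : (fun p : X × K => f (p.1, p.2.1)) = t.1 := ht.symm
    rw [this]
    exact t.2
  have hon : ContinuousOn f (univ ×ˢ K) := by
    rw [continuousOn_iff_continuous_domRestrict]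
    let φ : (univ ×ˢ K : Set (X × Y)) → X × K := fun p => (p.1.1, ⟨p.1.2, p.2.2⟩)
    have hφ : Continuous φ := by fun_prop
    exact hc.comp hφ
  exact hon.continuousAt (prod_mem_nhds univ_mem hyK)

/-- **Theorem.** Let `X` be a Grothendieck space and let `Y` have a dense `σ`-compact subspace
(for example, `Y` compact, or countable, or separable, or `σ`-compact). Then `X × Y` is a
Grothendieck space. If `X` is weakly Grothendieck and `Y` is locally compact (for example, compact),
then `X × Y` is weakly Grothendieck. -/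
theorem result :
    (∀ (X : Type u) [TopologicalSpace X] [T35Space X], Grothendieck X →
      ∀ (Y : Type v) [TopologicalSpace Y] [T35Space Y], HasDenseSigmaCompact Y →
        Grothendieck (X × Y)) ∧
    (∀ (X : Type u) [TopologicalSpace X] [T35Space X], WeaklyGrothendieck X →
      ∀ (Y : Type v) [TopologicalSpace Y] [T35Space Y] [LocallyCompactSpace Y],
        WeaklyGrothendieck (X × Y)) ∧
    ∀ (Y : Type v) [TopologicalSpace Y],
      SigmaCompactSpace Y ∨ TopologicalSpace.SeparableSpace Y → HasDenseSigmaCompact Y := by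
  refine ⟨fun X _ _ hX Y _ _ hY => grothendieck_prod hX hY,
    fun X _ _ hX Y _ _ _ => weakly_prod hX, fun Y _ hY => ?_⟩
  rcases hY with hY | hY
  · exact ⟨univ, isSigmaCompact_univ, dense_univ⟩
  · obtain ⟨D, hD, hD'⟩ := TopologicalSpace.exists_countable_dense Y
    have : Countable D := hD.to_subtype
    refine ⟨D, ?_, hD'⟩
    have h := isSigmaCompact_iUnion_of_isCompact (fun d : D => ({d.1} : Set Y))
      fun d => isCompact_singleton
    have h2 : (⋃ d : D, ({d.1} : Set Y)) = D := by
      ext y
      simp
    rwa [h2] at h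

end Pool.Agent.Results.MP_8a2df8_gt.DenseSigmaCompactFactor
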